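import Pool.Agent.MP_6a4325_al.H84.Spec3

/-! Extensions of groups that are `p`-group by soluble by finite. -/

set_option autoImplicit false

namespace Pool.Agent.MP_6a4325_al.H10

open Pool.Agent.MP_6a4325_al.H62 Pool.Agent.MP_6a4325_al.H84
open scoped commutatorElement

namespace ExtA

/-- iterated commutator subgroups -/
def dd {G : Type} [Group G] : ℕ → Subgroup G → Subgroup G
  | 0, H => H
  | d + 1, H => dd d ⁅H, H⁆

theorem dd_mono {G : Type} [Group G] (d : ℕ) {H K : Subgroup G} (h : H ≤ K) : dd d H ≤ dd d K := by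
  induction d generalizing H K with
  | zero => exact h
  | succ d ih => exact ih (Subgroup.commutator_mono h h)

theorem dd_map {G Q : Type} [Group G] [Group Q] (f : G →* Q) (d : ℕ) (H : Subgroup G) :
    (dd d H).map f = dd d (H.map f) := by
  induction d generalizing H with
  | zero => rfl
  | succ d ih => exact (ih _).trans (congrArg (dd d) (Subgroup.map_commutator _ _ _))

theorem dd_succ {G : Type} [Group G] (d : ℕ) (H : Subgroup G) :
    dd (d + 1) H = ⁅dd d H, dd d H⁆ := by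
  induction d generalizing H with
  | zero => rfl
  | succ d ih => exact ih _

theorem dd_top {G : Type} [Group G] (d : ℕ) : dd d (⊤ : Subgroup G) = derivedSeries G d := by
  induction d with
  | zero => rfl
  | succ d ih => rw [dd_succ, ih, derivedSeries_succ]

theorem exists_dd {G : Type} [Group G] {R : Subgroup G} (h : Group.IsSolvable R) :
    ∃ d, dd d R = ⊥ := by
  obtain ⟨d, hd⟩ := h
  refine ⟨d, ?_⟩
  have := dd_map R.subtype d ⊤
  rwa [dd_top, hd, Subgroup.map_bot, ← MonoidHom.range_eq_map, R.range_subtype, eq_comm] at this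

variable (hV : VsApi) {p : ℕ} [Fact p.Prime] (hP : PvApi p) (hE : SExt0)

include hV hP hE

theorem stepA (G Q : Type) [Group G] [Group Q] (f : G →* Q) (hL : LP G) (hW : W (ZMod p) G)
    (hc : Cm f.ker f.ker) (hQ : PVS p Q) : PVS p G := by
  obtain ⟨S, hS, h1, h2⟩ := hP.norm Q hQ
  let g := (QuotientGroup.mk' S).comp f
  refine hP.ext G g.ker (hE p g.ker (f.ker.subgroupOf g.ker) (hV.lInj _ _ _ g.ker.subtype_injective hL)
    (hW.sub _) inferInstance (fun a ha b hb => Subtype.ext (hc _ ha _ hb)) fun x => ?_)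
    (hV.inj _ _ _ (QuotientGroup.kerLift_injective g) h2)
  have hx : f x ∈ S := (QuotientGroup.eq_one_iff _).1 x.2
  obtain ⟨j, hj⟩ := h1 ⟨_, hx⟩
  refine ⟨j, ?_⟩
  show f ((x : G) ^ p ^ j) = 1
  rw [map_pow]
  exact congrArg Subtype.val hj

theorem stepB (G : Type) [Group G] (hL : LP G) (hW : W (ZMod p) G) (d : ℕ) :
    ∀ (Q : Type) [Group Q] (f : G →* Q), dd d f.ker = ⊥ → PVS p Q → PVS p G := by
  induction d with
  | zero => exact fun Q _ f h hQ => hP.inj _ _ f ((MonoidHom.ker_eq_bot_iff f).1 h) hQ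
  | succ d ih =>
    intro Q _ f h hQ
    refine ih (G ⧸ ⁅f.ker, f.ker⁆) (QuotientGroup.mk' _) (by rwa [QuotientGroup.ker_mk']) ?_
    refine stepA hV hP hE _ Q (QuotientGroup.lift _ f (Subgroup.commutator_le_left _ _))
      (hV.lSurj _ _ _ (QuotientGroup.mk'_surjective _) hL) (hW.quot _) ?_ hQ
    intro a ha b hb
    obtain ⟨a, rfl⟩ := QuotientGroup.mk_surjective a
    obtain ⟨b, rfl⟩ := QuotientGroup.mk_surjective b
    have h1 : ((⁅a, b⁆ : G) : G ⧸ ⁅f.ker, f.ker⁆) = 1 :=
      (QuotientGroup.eq_one_iff _).2 (Subgroup.commutator_mem_commutator ha hb)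
    exact commutatorElement_eq_one_iff_mul_comm.1 h1

theorem stepC (G : Type) [Group G] (N : Subgroup G) [hN : N.Normal] (hL : LP G)
    (hW : W (ZMod p) G) (h0 : NoP p G) (h1 : PVS p N) (h2 : PVS p (G ⧸ N)) : PVS p G := by
  obtain ⟨R, hR, -, hRs, hRi⟩ := hV.rad G N hN (hP.noP G N hN h0 h1)
  obtain ⟨C, -, hCi, hC⟩ := hV.cen G R N hR hN hRi
  obtain ⟨d, hd⟩ := exists_dd hRs
  let f := (QuotientGroup.mk' N).comp C.subtype
  refine hP.fin G C hCi (stepB hV hP hE C (hV.lInj _ _ _ C.subtype_injective hL) (hW.sub _) (d + 1)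
    _ f ?_ h2)
  rw [← Subgroup.map_eq_bot_iff_of_injective _ C.subtype_injective, dd_map, eq_bot_iff, ← hd]
  refine dd_mono d (Subgroup.commutator_le.2 ?_)
  rintro _ ⟨x, -, rfl⟩ _ ⟨y, hy, rfl⟩
  exact hC x x.2 y ((QuotientGroup.eq_one_iff _).1 hy)

end ExtA

theorem ext3 : VsApi → SPv → SOp → SExt0 → SExt3 := by
  intro hV hP hO hE p _ G _ N hN hL hW h1 h2
  obtain ⟨S, hS, h3, h4⟩ := hO p G
  have hs := QuotientGroup.mk'_surjective S
  have : (N.map (QuotientGroup.mk' S)).Normal := hN.map _ hs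
  refine (hP p).quot G (G ⧸ S) (QuotientGroup.mk' S) hs (by rwa [QuotientGroup.ker_mk']) ?_
  refine ExtA.stepC hV (hP p) hE _ (N.map (QuotientGroup.mk' S)) (hV.lSurj _ _ _ hs hL) (hW.quot _)
    h4 ((hP p).surj _ _ _ (MonoidHom.subgroupMap_surjective _ _) h1)
    ((hP p).surj _ _ (QuotientGroup.map N _ (QuotientGroup.mk' S) (Subgroup.le_comap_map _ _))
      (fun x => ?_) h2)
  obtain ⟨x, rfl⟩ := QuotientGroup.mk_surjective x
  obtain ⟨x, rfl⟩ := hs x
  exact ⟨x, rfl⟩

end Pool.Agent.MP_6a4325_al.H10
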